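import Pool.Agent.U180.DP.Stm

/-!
Project DP (helper180), package CONV (helper612): the convergence part of the criterion.
-/

set_option autoImplicit false

open MeasureTheory ProbabilityTheory Filter Topology

namespace Pool.Agent.U612.DP

open Pool.Agent.U180.DP

theorem t_CONV (h1 : S_VOID) (_h2 : S_LAW) : S_CONV := by
  intro Ω _ P A B ε U hU hA hB hε x y hx hy hs
  haveI := hU.prob
  obtain ⟨X₀, hX⟩ := h1 A B ε hA hB hε
  have hb : ∀ᶠ n in atTop, ‖P.real (void A U (x n) (y n))‖ ≤
      Real.exp (-((1 - ε) * y n / Real.log (x n))) := by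
    filter_upwards [hy, hx.eventually_ge_atTop X₀] with n hn hn'
    rw [Real.norm_of_nonneg measureReal_nonneg]
    exact (hX Ω P U hU (x n) (y n) hn' hn.1 hn.2).2
  have hsum : Summable fun n => P.real (void A U (x n) (y n)) :=
    Summable.of_norm_bounded_eventually_nat hs hb
  have htop : ∑' n, P (void A U (x n) (y n)) ≠ ⊤ := by
    have e : (fun n => P (void A U (x n) (y n))) =
        fun n => ENNReal.ofReal (P.real (void A U (x n) (y n))) := by
      funext n
      rw [ofReal_measureReal]
    rw [e]
    exact hsum.tsum_ofReal_ne_top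
  exact ae_eventually_notMem htop

end Pool.Agent.U612.DP
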